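import Pool.Agent.MWGN.StmtsB

/-!
# Row HZE of squad MWGN
-/

set_option autoImplicit false

namespace Pool.Agent.MWGN.H81

open Pool.Agent.Helper14_MV Pool.Agent.Helper2_MV
open Pool.Agent.MWK (pre Gw)

theorem hze (mpo : MpoStmt) : HzeStmt := by
  intro τ m p X Y F G H H1 E H2 w hw hG hK h0 h1 hH hz hz'
  obtain ⟨-, -, hL, -⟩ := mpo N1 m m (by omega) p X Y F G H w hw hG hK.c1 h0 h1
  have hG1 : G.count (N1.L (m + 1)) = 1 := (hL (m + 1) (le_refl _)).2.2.2.2.1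
  have hx : nn w (N1.L m) ((N2 m).L 0) = w.count (N1.L m) := hK.c2.xl 0 (by omega)
  have hy : nn w (N1.L (m + 1)) ((N2 m).L 0) = 1 := hK.c2.yl 0 (by omega)
  have hw' : w = (p ++ (X ++ (Y ++ (F ++ (X ++ (G ++ (Y ++ H1))))))) ++ (E ++ H2) := by
    rw [hw, hH]; simp
  have hn : (N2 m).L 0 ∉ p ++ (X ++ (Y ++ (F ++ (X ++ (G ++ (Y ++ H1)))))) := by
    intro hm
    unfold nn at hx
    rw [hw', MWK.pre_append_mem hm] at hx
    have h2 := MWK.count_pre_le (p ++ (X ++ (Y ++ (F ++ (X ++ (G ++ (Y ++ H1))))))) (N1.L m)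
      ((N2 m).L 0)
    have h3 : 0 < E.count (N1.L m) := List.count_pos_iff.2 hz
    rw [hx] at h2
    simp only [List.count_append] at h2
    omega
  refine ⟨?_, fun hm => hn (by simp [hm])⟩
  by_contra hE
  have hn2 : (N2 m).L 0 ∉ (p ++ (X ++ (Y ++ (F ++ (X ++ (G ++ (Y ++ H1))))))) ++ E := by
    intro hm
    rcases List.mem_append.1 hm with hm | hm
    · exact hn hm
    · exact hE hm
  have hw2 : w = ((p ++ (X ++ (Y ++ (F ++ (X ++ (G ++ (Y ++ H1))))))) ++ E) ++ H2 := by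
    rw [hw']; simp
  unfold nn at hy
  rw [hw2, MWK.pre_append hn2] at hy
  have h3 : 0 < E.count (N1.L (m + 1)) := List.count_pos_iff.2 hz'
  simp only [List.count_append] at hy
  omega

end Pool.Agent.MWGN.H81
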