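import Pool.Agent.MWGN.StmtsB

/-!
# Row MC3 of squad MWGN
-/

set_option autoImplicit false

namespace Pool.Agent.MWGN.H81M

open Pool.Agent.Helper14_MV Pool.Agent.Helper2_MV
open Pool.Agent.MWK (pre Gw)

theorem gh_factor (g h : ℕ → List ℕ) : ∀ (N i : ℕ), i < N →
    ∃ U V, gh g h N = U ++ (g i ++ (h i ++ V)) := by
  intro N
  induction N with
  | zero => intro i hi; omega
  | succ N ih =>
    intro i hi
    rcases Nat.lt_or_ge i N with h1 | h1
    · obtain ⟨U, V, hUV⟩ := ih i h1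
      exact ⟨U, V ++ (g N ++ h N), by rw [gh_succ, hUV]; simp⟩
    · have e : i = N := by omega
      subst e
      exact ⟨gh g h i, [], by rw [gh_succ]; simp⟩

/-- the names of level 1 with `L m` and `L (m+1)` exchanged -/
def sw (m : ℕ) : Nm := { N1 with
  L := fun i => if i = m then N1.L (m + 1) else if i = m + 1 then N1.L m else N1.L i }

theorem sw_m (m : ℕ) : (sw m).L m = N1.L (m + 1) := by simp [sw]
theorem sw_m1 (m : ℕ) : (sw m).L (m + 1) = N1.L m := by simp [sw]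
theorem sw_lt {m i : ℕ} (h : i < m) : (sw m).L i = N1.L i := by
  have h1 : i ≠ m := by omega
  have h2 : i ≠ m + 1 := by omega
  simp [sw, h1, h2]

theorem sw_all {m : ℕ} {Q : ℕ → Prop} (h : ∀ i ≤ m + 1, Q (N1.L i)) :
    ∀ i ≤ m + 1, Q ((sw m).L i) := by
  intro i hi
  rcases Nat.lt_or_ge i m with h1 | h1
  · rw [sw_lt h1]
    exact h i hi
  · rcases Nat.eq_or_lt_of_le h1 with h2 | h2
    · rw [← h2, sw_m]
      exact h (m + 1) (le_refl _)
    · have h3 : i = m + 1 := by omega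
      rw [h3, sw_m1]
      exact h m (by omega)

theorem wc_sw {m : ℕ} {w : List ℕ} (h : WC N1 m m w) : WC (sw m) m m w where
  sa := h.sa
  sb := h.sb
  ob := h.ob
  x2 := h.x2
  y2 := h.y2
  xa := h.xa
  ya := h.ya
  xb := h.xb
  yb := h.yb
  l2 := sw_all (Q := fun l => 2 ≤ w.count l) h.l2
  l0 := sw_all (Q := fun l => nn w l N1.a = 0) h.l0
  lb := sw_all (Q := fun l => nn w l N1.b = 1) h.lb
  c2 := h.c2
  c0 := h.c0
  cb := h.cb
  xl := sw_all (Q := fun l => nn w N1.x l = w.count N1.x) h.xl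
  yl := sw_all (Q := fun l => nn w N1.y l = 1) h.yl
  cl0 := by
    intro i hi j hj
    rw [sw_lt (by omega)]
    exact h.cl0 i hi j hj
  cl1 := by
    intro i hi j hij hj
    rcases Nat.lt_or_ge j m with h1 | h1
    · rw [sw_lt h1]
      exact h.cl1 i hi j hij hj
    · rcases Nat.eq_or_lt_of_le h1 with h2 | h2
      · rw [← h2, sw_m]
        exact h.cl1 i hi (m + 1) (by omega) (le_refl _)
      · have h3 : j = m + 1 := by omega
        rw [h3, sw_m1]
        exact h.cl1 i hi m hi (by omega)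

theorem mc3 (hFOR : ForStmt) (hMCV : McvStmt) (hMPO : MpoStmt) (hHZE : HzeStmt) : Mc3Stmt := by
  intro τ m hτ o f p q hK ⟨h0, h1⟩
  obtain ⟨-, h2⟩ := hFOR τ m hτ f
  obtain ⟨P, F, H, hw, hfac, H1, H2, hH⟩ := h2 o
  have hw1 := hw true
  simp only [if_true] at hw1
  generalize hg : (fun i => f ((N2 m).L i)) = g at hw1
  generalize hh : (fun i => if i < m + 1 then f ((N2 m).C i) ++ f ((N2 m).C i) else []) = h at hw1
  have hgi : ∀ i, g i = f ((N2 m).L i) := fun i => by rw [← hg]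
  have hhi : ∀ i, h i = if i < m + 1 then f ((N2 m).C i) ++ f ((N2 m).C i) else [] :=
    fun i => by rw [← hh]
  rw [hw1] at hK
  generalize hwd : p ++ (P ++ ((f (N1.L m) ++ f (N1.L (m + 1))) ++ (F ++ (f (N1.L m) ++
      (gh g h (m + 2) ++ (f (N1.L (m + 1)) ++ H)))))) ++ q = w at hK
  have hwe : w = (p ++ P) ++ (f (N1.L m) ++ (f (N1.L (m + 1)) ++ (F ++ (f (N1.L m) ++
      (gh g h (m + 2) ++ (f (N1.L (m + 1)) ++ (H ++ q))))))) := by
    rw [← hwd]; simp
  -- the letters of `G`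
  have hpin : ∀ i < m + 2, ∀ c ∈ g i, c ∈ H ++ q := by
    intro i hi c hc
    obtain ⟨U, V, hUV⟩ := hfac i (by omega)
    rw [hgi] at hc
    rw [hUV]
    simp [hc]
  have hcon : ∀ i < m + 2, ∀ c ∈ h i, 2 ≤ (gh g h (m + 2)).count c := by
    intro i hi c hc
    obtain ⟨U, V, hUV⟩ := gh_factor g h (m + 2) i hi
    have h3 : 2 ≤ (h i).count c := by
      rw [hhi] at hc ⊢
      by_cases h4 : i < m + 1
      · rw [if_pos h4] at hc ⊢
        have h5 : c ∈ f ((N2 m).C i) := by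
          rcases List.mem_append.1 hc with h5 | h5 <;> exact h5
        have h6 : 0 < (f ((N2 m).C i)).count c := List.count_pos_iff.2 h5
        rw [List.count_append]
        omega
      · rw [if_neg h4] at hc
        simp at hc
    rw [hUV]
    simp only [List.count_append]
    omega
  have hG : ∀ c ∈ gh g h (m + 2), 2 ≤ w.count c := by
    intro c hc
    have h3 : 0 < (gh g h (m + 2)).count c := List.count_pos_iff.2 hc
    obtain ⟨i, hi, h4 | h4⟩ := mem_gh.1 hc
    · have h5 : 0 < (H ++ q).count c := List.count_pos_iff.2 (hpin i hi c h4)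
      rw [hwe]
      simp only [List.count_append] at h5 ⊢
      omega
    · have h5 := hcon i hi c h4
      rw [hwe]
      simp only [List.count_append]
      omega
  obtain ⟨hK0, -⟩ := hK
  -- a factor of `H` which contains both lights
  have hzz : ∀ E U V : List ℕ, H ++ q = U ++ (E ++ V) → N1.L m ∈ E → N1.L (m + 1) ∈ E →
      (∀ c ∈ E, c ∈ gh g h (m + 2)) → False := by
    intro E U V hE hz hz' hEG
    obtain ⟨h3, h4⟩ := hHZE τ m (p ++ P) (f (N1.L m)) (f (N1.L (m + 1))) F (gh g h (m + 2))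
      (H ++ q) U E V w hwe hG hK0 h0 h1 hE hz hz'
    exact h4 (hEG _ h3)
  have hgG : ∀ i < m + 2, ∀ c ∈ g i, c ∈ gh g h (m + 2) := by
    intro i hi c hc
    exact mem_gh.2 ⟨i, hi, Or.inl hc⟩
  have hpair : ∀ i < m + 2, ¬ (N1.L m ∈ g i ∧ N1.L (m + 1) ∈ g i) := by
    rintro i hi ⟨h3, h4⟩
    obtain ⟨U, V, hUV⟩ := hfac i (by omega)
    exact hzz (g i) U (V ++ q) (by rw [hUV, hgi]; simp) h3 h4 (hgG i hi)
  -- the last two pins
  have hlast : ¬ ((N1.L m ∈ g m ∧ N1.L (m + 1) ∈ g (m + 1)) ∨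
      (N1.L (m + 1) ∈ g m ∧ N1.L m ∈ g (m + 1))) := by
    intro h3
    have h4 : H ++ q = H1 ++ ((g m ++ g (m + 1)) ++ (H2 ++ q)) := by
      rw [hH, hgi, hgi]; simp
    refine hzz (g m ++ g (m + 1)) H1 (H2 ++ q) h4 ?_ ?_ ?_
    · rcases h3 with h3 | h3
      · exact List.mem_append_left _ h3.1
      · exact List.mem_append_right _ h3.2
    · rcases h3 with h3 | h3
      · exact List.mem_append_right _ h3.2
      · exact List.mem_append_left _ h3.1
    · intro c hc
      rcases List.mem_append.1 hc with hc | hc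
      · exact hgG m (by omega) c hc
      · exact hgG (m + 1) (by omega) c hc
  obtain ⟨-, -, hL, -⟩ := hMPO N1 m m (by omega) (p ++ P) (f (N1.L m)) (f (N1.L (m + 1))) F
    (gh g h (m + 2)) (H ++ q) w hwe hG hK0.c1 h0 h1
  have hm : N1.L m ∈ gh g h (m + 2) :=
    List.count_pos_iff.1 (by rw [(hL m (by omega)).2.2.2.2.1]; exact Nat.one_pos)
  have hne : N1.L m ≠ N1.L (m + 1) := by
    show 6 + 6 * m ≠ 6 + 6 * (m + 1)
    omega
  rcases MWK.pre_total hm hne with h3 | h3
  · obtain ⟨h4, -⟩ := hMCV N1 m m (le_refl _) (by omega) (p ++ P) (f (N1.L m))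
      (f (N1.L (m + 1))) F (gh g h (m + 2)) (H ++ q) w hwe hG hK0.c1 h0 h1 g h rfl hpin hcon
      (fun _ => hpair) (fun _ => h3)
    exact hlast (Or.inl ⟨h4 m (by omega), h4 (m + 1) (by omega)⟩)
  · obtain ⟨h4, -⟩ := hMCV (sw m) m m (le_refl _) (by omega) (p ++ P) (f (N1.L m))
      (f (N1.L (m + 1))) F (gh g h (m + 2)) (H ++ q) w hwe hG (wc_sw hK0.c1) h0 h1 g h rfl hpin
      hcon (fun _ i hi => by rw [sw_m, sw_m1]; exact fun h5 => hpair i hi ⟨h5.2, h5.1⟩)
      (fun _ => by rw [sw_m, sw_m1]; exact h3)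
    have h5 := h4 m (by omega)
    have h6 := h4 (m + 1) (by omega)
    rw [sw_m] at h5
    rw [sw_m1] at h6
    exact hlast (Or.inr ⟨h5, h6⟩)

end Pool.Agent.MWGN.H81M
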